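import Pool.Agent.V11120.PalT.Defect

/-!
# Richness and the numbers `T(n)`
-/

set_option autoImplicit false

namespace Pool.Agent.V11120.PalT

variable {A : Type}

/-- every factor of length `n` has exactly `n+1` distinct palindromic factors -/
def RRich (u : ℕ → A) : Prop :=
  ∀ w ∈ Lang u, {v | v <:+: w ∧ Pal v}.ncard = w.length + 1

/-- vanishing `T` gives unioccurrent palindromic suffixes of all nonempty prefixes -/
theorem uni_all [Finite A] (u : ℕ → A) (hrev : ClosedRev u) (hT : ∀ n, T u n = 0) (m : ℕ)
    (hm : 1 ≤ m) : Uni u m := by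
  classical
  have hex2 : ∃ e, e ≤ m ∧ ¬ ∃ j, j < (m - e) ∧ Cls u (m - e) j e :=
    ⟨m, le_rfl, by rintro ⟨j, hj, -⟩; omega⟩
  obtain ⟨he1, he2⟩ := Nat.find_spec hex2
  have hmin : ∀ e', e' < Nat.find hex2 →
      ¬ (e' ≤ m ∧ ¬ ∃ j, j < (m - e') ∧ Cls u (m - e') j e') :=
    fun e' h => Nat.find_min hex2 h
  set e := Nat.find hex2 with he
  have he0 : 0 < e := by
    rcases Nat.eq_zero_or_pos e with h | h
    · exfalso
      apply he2
      rw [h]
      exact ⟨0, by omega, Or.inl (fun t ht => by omega)⟩
    · exact h
  obtain ⟨e', hee⟩ : ∃ e', e = e' + 1 := ⟨e - 1, by omega⟩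
  have h3 : ∃ j, j < (m - e') ∧ Cls u (m - e') j e' := by
    by_contra hc
    exact hmin e' (by omega) ⟨by omega, hc⟩
  obtain ⟨d, hd⟩ : ∃ d, m - e = d := ⟨_, rfl⟩
  have hd' : m - e' = d + 1 := by omega
  rw [hd'] at h3
  rw [hd] at he2
  have h4 : fac u (d + 1) e' ∈ S u e' d := by
    rw [mem_S]
    obtain ⟨j, hj1, hj2⟩ := h3
    exact ⟨j, by omega, (cls_iff _ _ _ _).1 hj2⟩
  rcases no_cycle u hrev e' (hT _) d h4 with h5 | h5
  · exfalso
    apply he2
    rw [mem_E] at h5
    obtain ⟨j, hj1, hj2⟩ := h5
    refine ⟨j, hj1, ?_⟩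
    rw [hee]
    exact (cls_iff _ _ _ _).2 hj2
  · refine ⟨d, by omega, ?_, ?_⟩
    · have h6 := (pal_fac_iff u d (e' + 1)).1 h5
      rwa [show d + (e' + 1) = m by omega] at h6
    · intro s' hs' hsame
      apply he2
      refine ⟨s', hs', ?_⟩
      rw [show e = m - d by omega]
      exact hsame.symm.cls

/-- palindromic factors -/
def PF (w : List A) : Set (List A) := {v | v <:+: w ∧ Pal v}

theorem PF_finite (w : List A) : (PF w).Finite := by
  have h1 : PF w ⊆ (fun q : ℕ × ℕ => (w.drop q.1).take q.2) ''
      (Set.Iic w.length ×ˢ Set.Iic w.length) := by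
    rintro v ⟨⟨s, t, hv⟩, -⟩
    have hl := congrArg List.length hv
    rw [List.length_append, List.length_append] at hl
    refine ⟨(s.length, v.length), ⟨Set.mem_Iic.2 ?_, Set.mem_Iic.2 ?_⟩, ?_⟩
    · show s.length ≤ w.length
      omega
    · show v.length ≤ w.length
      omega
    · show (w.drop s.length).take v.length = v
      rw [← hv, List.append_assoc, List.drop_left, List.take_left]
  exact (((Set.finite_Iic _).prod (Set.finite_Iic _)).image _).subset h1

theorem PF_concat (w : List A) (a : A) : (PF (w ++ [a])).ncard ≤ (PF w).ncard + 1 := by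
  classical
  -- the longest palindromic suffix
  have hex : ∃ k, Pal ((w ++ [a]).drop k) := ⟨(w ++ [a]).length, by
    rw [List.drop_length]; rfl⟩
  have hspec := Nat.find_spec hex
  have hle : ∀ k, Pal ((w ++ [a]).drop k) → Nat.find hex ≤ k := fun k h => Nat.find_min' hex h
  set k0 := Nat.find hex with hk0
  have h1 : PF (w ++ [a]) ⊆ PF w ∪ {(w ++ [a]).drop k0} := by
    rintro v ⟨⟨s, t, hv⟩, hp⟩
    rcases List.eq_nil_or_concat t with rfl | ⟨t', b, rfl⟩
    · -- a palindromic suffix
      rw [List.append_nil] at hv
      have hvd : v = (w ++ [a]).drop s.length := by rw [← hv, List.drop_left]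
      have h2 := hle s.length (by rw [← hvd]; exact hp)
      rcases Nat.eq_or_lt_of_le h2 with h3 | h3
      · right
        rw [Set.mem_singleton_iff, h3]
        exact hvd
      · left
        refine ⟨?_, hp⟩
        -- `v` is a proper suffix, hence a proper prefix of the longest one
        set v0 := (w ++ [a]).drop k0 with hv0
        have hsuf : v = v0.drop (s.length - k0) := by
          rw [hv0, List.drop_drop, hvd]
          congr 1
          omega
        have hlen : v.length + (s.length - k0) = v0.length := by
          rw [hsuf, List.length_drop]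
          have hs : s.length ≤ (w ++ [a]).length := by
            rw [← hv, List.length_append]; omega
          rw [hv0, List.length_drop]
          omega
        have hpre : v = v0.take v.length := by
          have e1 : v0.reverse = v0 := hspec
          have e2 : v.reverse = v := hp
          conv_lhs => rw [← e2, hsuf, List.reverse_drop, e1]
          congr 1
          omega
        have hpos : 0 < s.length - k0 := by omega
        refine ⟨(w ++ [a]).take k0, (v0.drop v.length).dropLast, ?_⟩
        have e3 : v0 = v ++ v0.drop v.length := by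
          conv_lhs => rw [← List.take_append_drop v.length v0, ← hpre]
        have e4 : w ++ [a] = (w ++ [a]).take k0 ++ (v ++ v0.drop v.length) := by
          rw [← e3, hv0, List.take_append_drop]
        have hne : v0.drop v.length ≠ [] := by
          intro h
          have := congrArg List.length h
          rw [List.length_drop, List.length_nil] at this
          omega
        have e5 := congrArg List.dropLast e4
        rw [List.dropLast_concat] at e5
        conv_rhs => rw [e5]
        rw [List.append_assoc, List.dropLast_append_of_ne_nil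
          (by simp [hne]), List.dropLast_append_of_ne_nil hne]
    · left
      refine ⟨⟨s, t', ?_⟩, hp⟩
      have := congrArg List.dropLast hv
      rw [List.concat_eq_append, ← List.append_assoc, List.dropLast_concat,
        List.dropLast_concat] at this
      exact this
  calc (PF (w ++ [a])).ncard ≤ (PF w ∪ {(w ++ [a]).drop k0}).ncard :=
        Set.ncard_le_ncard h1 ((PF_finite w).union (Set.finite_singleton _))
    _ ≤ (PF w).ncard + 1 := (Set.ncard_union_le _ _).trans (by rw [Set.ncard_singleton])

theorem PF_reverse (w : List A) : PF w.reverse = PF w := by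
  have key : ∀ w : List A, PF w.reverse ⊆ PF w := by
    rintro w v ⟨⟨s, t, hv⟩, hp⟩
    refine ⟨⟨t.reverse, s.reverse, ?_⟩, hp⟩
    have := congrArg List.reverse hv
    rw [List.reverse_append, List.reverse_append, List.reverse_reverse] at this
    rw [← this, List.append_assoc]
    congr 2
    exact hp.symm
  apply Set.Subset.antisymm (key w)
  have := key w.reverse
  rwa [List.reverse_reverse] at this

theorem PF_cons (w : List A) (a : A) : (PF (a :: w)).ncard ≤ (PF w).ncard + 1 := by
  have h := PF_concat w.reverse a
  rw [PF_reverse, ← List.reverse_cons, PF_reverse] at h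
  exact h

theorem PF_append (v w : List A) : (PF (v ++ w)).ncard ≤ (PF w).ncard + v.length := by
  induction v with
  | nil => simp
  | cons a v ih =>
    have := PF_cons (v ++ w) a
    rw [List.cons_append, List.length_cons]
    omega

theorem PF_nil : (PF ([] : List A)).ncard = 1 := by
  have : PF ([] : List A) = {[]} := by
    ext v
    constructor
    · rintro ⟨h, -⟩
      exact List.infix_nil.1 h
    · rintro rfl
      exact ⟨List.infix_rfl, rfl⟩
  rw [this, Set.ncard_singleton]

theorem PF_le (w : List A) : (PF w).ncard ≤ w.length + 1 := by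
  have := PF_append w ([] : List A)
  rw [List.append_nil, PF_nil] at this
  omega

theorem fac_append (u : ℕ → A) (i a b : ℕ) : fac u i a ++ fac u (i + a) b = fac u i (a + b) := by
  unfold fac
  rw [List.range_add, List.map_append, List.map_map]
  congr 1
  apply List.map_congr_left
  intro t _
  simp [add_assoc]

theorem rich_of_uni (u : ℕ → A) (hU : ∀ m, 1 ≤ m → Uni u m) : RRich u := by
  have key : ∀ m, m + 1 ≤ (PF (fac u 0 m)).ncard := by
    intro m
    induction m with
    | zero => exact PF_nil.ge
    | succ m ih =>
      obtain ⟨s, hs1, hs2, hs3⟩ := hU (m + 1) (by omega)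
      have hlt : s < m + 1 := by
        by_contra hc
        have h0 : s = m + 1 := by omega
        apply hs3 0 (by omega)
        intro t ht
        omega
      have h1 : PF (fac u 0 m) ⊂ PF (fac u 0 (m + 1)) := by
        rw [Set.ssubset_iff_of_subset]
        · refine ⟨fac u s (m + 1 - s), ⟨fac_infix u _ _ _ (by omega), ?_⟩, ?_⟩
          · rw [pal_fac_iff, show s + (m + 1 - s) = m + 1 by omega]
            exact hs2
          · rintro ⟨hv, -⟩
            obtain ⟨s', h2, h3⟩ := infix_fac u m _ hv
            rw [fac_length] at h2 h3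
            rw [fac_eq_iff] at h3
            exact hs3 s' (by omega) h3.symm
        · rintro v ⟨hv, hp⟩
          exact ⟨hv.trans (fac_infix u (m + 1) 0 m (by omega)), hp⟩
      have h2 := Set.ncard_lt_ncard h1 (PF_finite _)
      omega
  rintro w ⟨i, n, rfl⟩
  apply le_antisymm (PF_le _)
  have h1 := key (i + n)
  have h2 := fac_append u 0 i n
  rw [zero_add] at h2
  rw [← h2] at h1
  have h3 := PF_append (fac u 0 i) (fac u i n)
  rw [fac_length] at h3
  rw [fac_length]
  change n + 1 ≤ (PF (fac u i n)).ncard
  omega

theorem uni_of_rich (u : ℕ → A) (h : RRich u) (m : ℕ) (hm : 1 ≤ m) : Uni u m := by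
  obtain ⟨k, rfl⟩ : ∃ k, m = k + 1 := ⟨m - 1, by omega⟩
  have h1 := h (fac u 0 (k + 1)) (mem_lang _ _ _)
  have h2 := h (fac u 0 k) (mem_lang _ _ _)
  rw [fac_length] at h1 h2
  have hne : ¬ PF (fac u 0 (k + 1)) ⊆ PF (fac u 0 k) := by
    intro hc
    have := Set.ncard_le_ncard hc (PF_finite _)
    change (PF (fac u 0 (k + 1))).ncard = _ at h1
    change (PF (fac u 0 k)).ncard = _ at h2
    omega
  rw [Set.not_subset] at hne
  obtain ⟨v, ⟨hv1, hv2⟩, hv3⟩ := hne
  obtain ⟨s, hs1, hs2⟩ := infix_fac u (k + 1) v hv1
  have hs3 : s + v.length = k + 1 := by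
    by_contra hc
    apply hv3
    refine ⟨?_, hv2⟩
    rw [hs2]
    exact fac_infix u _ _ _ (by omega)
  refine ⟨s, by omega, ?_, ?_⟩
  · rw [hs2, pal_fac_iff, hs3] at hv2
    exact hv2
  · intro s' hs' hsame
    apply hv3
    refine ⟨?_, hv2⟩
    rw [show k + 1 - s = v.length by omega, ← fac_eq_iff, ← hs2] at hsame
    rw [← hsame]
    exact fac_infix u _ _ _ (by omega)

/-- a word with vanishing `T` is rich -/
theorem rich_of_T [Finite A] (u : ℕ → A) (hrev : ClosedRev u) (hT : ∀ n, T u n = 0) :
    RRich u := rich_of_uni u (uni_all u hrev hT)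

/-- a rich word has vanishing `T` -/
theorem T_of_rich [Finite A] (u : ℕ → A) (hrev : ClosedRev u) (h : RRich u) (n : ℕ)
    (hn : 1 ≤ n) : T u n = 0 := T_zero u hrev 1 (uni_of_rich u h) n hn

end Pool.Agent.V11120.PalT
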