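import Mathlib

/-!
# Palindromes in infinite words closed under reversal: the numbers `T(n)`
-/

set_option autoImplicit false

namespace Pool.Agent.V11120.PalT

variable {A : Type}

/-- The factor of length `n` of `u` at position `i`. -/
def fac (u : ℕ → A) (i n : ℕ) : List A := (List.range n).map (fun j => u (i + j))

/-- The set of factors of `u`. -/
def Lang (u : ℕ → A) : Set (List A) := {w | ∃ i n, w = fac u i n}

/-- The language is closed under reversal. -/
def ClosedRev (u : ℕ → A) : Prop := ∀ w ∈ Lang u, w.reverse ∈ Lang u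

/-- Palindromes. -/
def Pal (w : List A) : Prop := w.reverse = w

/-- `v` occurs in `w` at position `i`. -/
def OccAt (v w : List A) (i : ℕ) : Prop :=
  i + v.length ≤ w.length ∧ (w.drop i).take v.length = v

/-- `v` is a complete return word of `w`: it is longer than `w`, has `w` as a prefix and as a
suffix, and contains exactly two occurrences of `w`. -/
def IsCRW (v w : List A) : Prop :=
  w.length < v.length ∧ w <+: v ∧ w <:+ v ∧ {i | OccAt w v i}.ncard = 2

/-- The factor complexity. -/
noncomputable def C (u : ℕ → A) (n : ℕ) : ℕ := {w | w ∈ Lang u ∧ w.length = n}.ncard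

/-- The palindromic complexity. -/
noncomputable def P (u : ℕ → A) (n : ℕ) : ℕ := {w | w ∈ Lang u ∧ w.length = n ∧ Pal w}.ncard

/-- `T(n) = C(n+1) - C(n) + 2 - P(n+1) - P(n)`. -/
noncomputable def T (u : ℕ → A) (n : ℕ) : ℤ :=
  (C u (n + 1) : ℤ) - C u n + 2 - P u (n + 1) - P u n

/-! ### factors and positions -/

/-- equal factors -/
def Same (u : ℕ → A) (i j n : ℕ) : Prop := ∀ t, t < n → u (i + t) = u (j + t)

/-- reversed factors -/
def Opp (u : ℕ → A) (i j n : ℕ) : Prop := ∀ s t, s + t + 1 = n → u (i + s) = u (j + t)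

/-- equal up to reversal -/
def Cls (u : ℕ → A) (i j n : ℕ) : Prop := Same u i j n ∨ Opp u i j n

/-- the interval `[i,j)` is a palindrome -/
def PalI (u : ℕ → A) (i j : ℕ) : Prop :=
  ∀ s t, i ≤ s → i ≤ t → s + t + 1 = i + j → u s = u t

theorem fac_length (u : ℕ → A) (i n : ℕ) : (fac u i n).length = n := by simp [fac]

theorem fac_get (u : ℕ → A) (i n t : ℕ) (h : t < (fac u i n).length) :
    (fac u i n)[t] = u (i + t) := by simp [fac]

theorem fac_eq_iff (u : ℕ → A) (i j n : ℕ) : fac u i n = fac u j n ↔ Same u i j n := by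
  constructor
  · intro h t ht
    have h1 := List.getElem_of_eq h (i := t) (by rw [fac_length]; exact ht)
    rwa [fac_get, fac_get] at h1
  · intro h
    apply List.ext_getElem
    · rw [fac_length, fac_length]
    · intro t h1 h2
      rw [fac_get, fac_get]
      exact h t (by rwa [fac_length] at h1)

theorem fac_rev_eq_iff (u : ℕ → A) (i j n : ℕ) :
    (fac u i n).reverse = fac u j n ↔ Opp u i j n := by
  constructor
  · intro h s t hst
    have h1 := List.getElem_of_eq h (i := t) (by rw [List.length_reverse, fac_length]; omega)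
    rw [List.getElem_reverse, fac_get, fac_get] at h1
    rw [← h1]
    congr 1
    rw [fac_length]
    omega
  · intro h
    apply List.ext_getElem
    · rw [List.length_reverse, fac_length, fac_length]
    · intro t h1 h2
      rw [List.getElem_reverse, fac_get, fac_get]
      apply h
      simp only [fac_length]
      rw [fac_length] at h2
      omega

theorem pal_fac_iff (u : ℕ → A) (i n : ℕ) : Pal (fac u i n) ↔ PalI u i (i + n) := by
  unfold Pal
  rw [fac_rev_eq_iff]
  constructor
  · intro h s t hs ht hst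
    have := h (s - i) (t - i) (by omega)
    rwa [show i + (s - i) = s by omega, show i + (t - i) = t by omega] at this
  · intro h s t hst
    exact h (i + s) (i + t) (by omega) (by omega) (by omega)

theorem mem_lang (u : ℕ → A) (i n : ℕ) : fac u i n ∈ Lang u := ⟨i, n, rfl⟩

theorem Same.symm {u : ℕ → A} {i j n : ℕ} (h : Same u i j n) : Same u j i n :=
  fun t ht => (h t ht).symm

theorem Same.trans {u : ℕ → A} {i j k n : ℕ} (h : Same u i j n) (h' : Same u j k n) :
    Same u i k n := fun t ht => (h t ht).trans (h' t ht)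

theorem Opp.symm {u : ℕ → A} {i j n : ℕ} (h : Opp u i j n) : Opp u j i n :=
  fun s t hst => (h t s (by omega)).symm

theorem Opp.opp {u : ℕ → A} {i j k n : ℕ} (h : Opp u i j n) (h' : Opp u j k n) :
    Same u i k n := by
  intro t ht
  exact (h t (n - 1 - t) (by omega)).trans (h' (n - 1 - t) t (by omega))

theorem Opp.same {u : ℕ → A} {i j k n : ℕ} (h : Opp u i j n) (h' : Same u j k n) :
    Opp u i k n := fun s t hst => (h s t hst).trans (h' t (by omega))

theorem Same.opp {u : ℕ → A} {i j k n : ℕ} (h : Same u i j n) (h' : Opp u j k n) :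
    Opp u i k n := fun s t hst => (h s (by omega)).trans (h' s t hst)

theorem Cls.symm {u : ℕ → A} {i j n : ℕ} (h : Cls u i j n) : Cls u j i n := by
  rcases h with h | h
  · exact Or.inl h.symm
  · exact Or.inr h.symm

theorem Cls.trans {u : ℕ → A} {i j k n : ℕ} (h : Cls u i j n) (h' : Cls u j k n) :
    Cls u i k n := by
  rcases h with h | h <;> rcases h' with h' | h'
  · exact Or.inl (h.trans h')
  · exact Or.inr (h.opp h')
  · exact Or.inr (h.same h')
  · exact Or.inl (h.opp h')

theorem Same.cls {u : ℕ → A} {i j n : ℕ} (h : Same u i j n) : Cls u i j n := Or.inl h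

theorem Opp.cls {u : ℕ → A} {i j n : ℕ} (h : Opp u i j n) : Cls u i j n := Or.inr h

theorem Cls.refl (u : ℕ → A) (i n : ℕ) : Cls u i i n := Or.inl (fun _ _ => rfl)

theorem PalI.opp {u : ℕ → A} {i j n : ℕ} (h : PalI u i j) (hn : i + n ≤ j) :
    Opp u i (j - n) n := by
  intro s t hst
  exact h (i + s) (j - n + t) (by omega) (by omega) (by omega)

/-- shrinking a palindromic interval -/
theorem PalI.sub {u : ℕ → A} {i j c d : ℕ} (h : PalI u i j) (h1 : i ≤ c) (h2 : c + d = i + j) :
    PalI u c d := fun s t hs ht hst => h s t (by omega) (by omega) (by omega)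

theorem PalI.of_same {u : ℕ → A} {i j n : ℕ} (h : PalI u i (i + n)) (h' : Same u i j n) :
    PalI u j (j + n) := by
  intro s t hs ht hst
  have e1 := h' (s - j) (by omega)
  have e2 := h' (t - j) (by omega)
  rw [show j + (s - j) = s by omega] at e1
  rw [show j + (t - j) = t by omega] at e2
  rw [← e1, ← e2]
  exact h _ _ (by omega) (by omega) (by omega)

theorem PalI.of_opp {u : ℕ → A} {i j n : ℕ} (h : PalI u i (i + n)) (h' : Opp u i j n) :
    PalI u j (j + n) := by
  intro s t hs ht hst
  have e1 := h' (t - j) (s - j) (by omega)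
  have e2 := h' (s - j) (t - j) (by omega)
  rw [show j + (s - j) = s by omega] at e1
  rw [show j + (t - j) = t by omega] at e2
  rw [← e1, ← e2]
  exact h _ _ (by omega) (by omega) (by omega)

/-- the prefix of length `m` has a palindromic suffix that occurs in it only once -/
def Uni (u : ℕ → A) (m : ℕ) : Prop :=
  ∃ s, s ≤ m ∧ PalI u s m ∧ ∀ s', s' < s → ¬ Same u s' s (m - s)

/-- consecutive occurrences of `w` or its reversal span palindromes -/
theorem claim (u : ℕ → A) (N0 : ℕ) (hU : ∀ m, N0 ≤ m → Uni u m) (n : ℕ) (hn : N0 ≤ n)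
    (i d : ℕ) (hd : 0 < d) (hij : Cls u i (i + d) n)
    (hno : ∀ t, 0 < t → t < d → ¬ Cls u i (i + t) n) : PalI u i (i + (d + n)) := by
  classical
  have hex : ∃ s, Cls u s i (d + n) := ⟨i, Cls.refl _ _ _⟩
  set s := Nat.find hex with hs
  have hsc : Cls u s i (d + n) := Nat.find_spec hex
  have hmin : ∀ s', s' < s → ¬ Cls u s' i (d + n) := fun s' h => Nat.find_min hex h
  obtain ⟨m, hm1, hm2, hm3⟩ := hU (s + (d + n)) (by omega)
  -- the windows of the first copy
  have hw : Cls u s (s + d) n ∧ ∀ t, 0 < t → t < d → ¬ Cls u s (s + t) n := by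
    rcases hsc with h | h
    · have key : ∀ t, t ≤ d → Same u (s + t) (i + t) n := by
        intro t ht t' ht'
        have := h (t + t') (by omega)
        rwa [← add_assoc, ← add_assoc] at this
      have k0 := key 0 (by omega)
      rw [add_zero, add_zero] at k0
      constructor
      · exact k0.cls.trans (hij.trans (key d le_rfl).symm.cls)
      · intro t ht1 ht2 hc
        exact hno t ht1 ht2 (k0.symm.cls.trans (hc.trans (key t ht2.le).cls))
    · have key : ∀ t, t ≤ d → Opp u (s + t) (i + (d - t)) n := by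
        intro t ht a b hab
        have := h (t + a) (d - t + b) (by omega)
        rwa [← add_assoc, ← add_assoc] at this
      have k0 := key 0 (by omega)
      have k1 := key d le_rfl
      rw [add_zero, Nat.sub_zero] at k0
      rw [Nat.sub_self, add_zero] at k1
      constructor
      · exact k0.cls.trans (hij.symm.trans k1.symm.cls)
      · intro t ht1 ht2 hc
        have k2 := key t ht2.le
        exact hno (d - t) (by omega) (by omega)
          (hij.trans (k0.symm.cls.trans (hc.trans k2.cls)))
  obtain ⟨hw1, hw2⟩ := hw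
  rcases lt_trichotomy m s with hms | hms | hms
  · exfalso
    have h1 : Opp u m s (d + n) := by
      intro a b hab
      exact hm2 (m + a) (s + b) (by omega) (by omega) (by omega)
    exact hmin m hms (h1.cls.trans hsc)
  · rw [hms] at hm2
    rcases hsc with h | h
    · exact hm2.of_same h
    · exact hm2.of_opp h
  · exfalso
    have hsame : ∀ s', s' < m → ¬ Same u s' m (s + (d + n) - m) := hm3
    rcases Nat.lt_or_ge (s + (d + n) - m) n with hl | hl
    · rcases hw1 with h | h
      · apply hsame (s + (m - (s + d))) (by omega)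
        intro t ht
        have := h (m - (s + d) + t) (by omega)
        rw [show s + (m - (s + d)) + t = s + (m - (s + d) + t) by ring, this]
        congr 1
        omega
      · apply hsame s hms
        intro t ht
        have h1 := h t (n - 1 - t) (by omega)
        rw [h1]
        exact hm2 _ _ (by omega) (by omega) (by omega)
    · have hc : Cls u s m n := by
        have h1 : Opp u m (s + d) n := by
          intro a b hab
          exact hm2 (m + a) (s + d + b) (by omega) (by omega) (by omega)
        exact hw1.trans (Or.inr h1.symm)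
      rcases Nat.lt_or_ge m (s + d) with h2 | h2
      · exact hw2 (m - s) (by omega) (by omega) (by
          rw [show s + (m - s) = m by omega]; exact hc)
      · have h3 : m = s + d := by omega
        apply hsame s hms
        rw [show s + (d + n) - m = n by omega]
        rcases hc with h | h
        · exact h
        · intro t ht
          rw [h t (n - 1 - t) (by omega)]
          exact hm2 _ _ (by omega) (by omega) (by omega)

/-! ### counting -/

section count

open Classical

/-- add a word and its reversal -/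
noncomputable def add2 (w : List A) (S : Finset (List A)) : Finset (List A) :=
  insert w (insert w.reverse S)

/-- palindromes count twice -/
noncomputable def nu (S : Finset (List A)) : ℕ := ∑ w ∈ S, if w.reverse = w then 2 else 1

/-- palindromes do not count -/
noncomputable def mu (S : Finset (List A)) : ℕ := ∑ w ∈ S, if w.reverse = w then 0 else 1

theorem mem_add2 {w v : List A} {S : Finset (List A)} :
    v ∈ add2 w S ↔ v = w ∨ v = w.reverse ∨ v ∈ S := by
  simp [add2]

theorem rev_inj {v w : List A} : v.reverse = w ↔ v = w.reverse := by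
  constructor
  · rintro rfl; rw [List.reverse_reverse]
  · rintro rfl; rw [List.reverse_reverse]

theorem nu_new (w : List A) (S : Finset (List A)) (h1 : w ∉ S) (h2 : w.reverse ∉ S) :
    nu (add2 w S) = nu S + 2 := by
  unfold nu add2
  by_cases hw : w.reverse = w
  · rw [hw, Finset.insert_idem, Finset.sum_insert h1, if_pos hw, add_comm]
  · rw [Finset.sum_insert, Finset.sum_insert h2, if_neg hw, if_neg]
    · ring
    · rw [List.reverse_reverse]; exact fun h => hw h.symm
    · rw [Finset.mem_insert, not_or]
      exact ⟨fun h => hw h.symm, h1⟩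

theorem add2_old (w : List A) (S : Finset (List A)) (h1 : w ∈ S) (h2 : w.reverse ∈ S) :
    add2 w S = S := by
  unfold add2
  rw [Finset.insert_eq_of_mem h2, Finset.insert_eq_of_mem h1]

theorem mu_new (w : List A) (S : Finset (List A)) (h1 : w ∉ S) (h2 : w.reverse ∉ S)
    (hw : w.reverse ≠ w) : mu (add2 w S) = mu S + 2 := by
  unfold mu add2
  rw [Finset.sum_insert, Finset.sum_insert h2, if_neg hw, if_neg]
  · ring
  · rw [List.reverse_reverse]; exact fun h => hw h.symm
  · rw [Finset.mem_insert, not_or]
    exact ⟨fun h => hw h.symm, h1⟩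

theorem mu_pal (w : List A) (S : Finset (List A)) (hw : w.reverse = w) :
    mu (add2 w S) = mu S := by
  unfold mu add2
  rw [hw, Finset.insert_idem]
  by_cases h : w ∈ S
  · rw [Finset.insert_eq_of_mem h]
  · rw [Finset.sum_insert h, if_pos hw, zero_add]

/-- the factors of length `n` at positions `≤ N`, with their reversals -/
noncomputable def S (u : ℕ → A) (n : ℕ) : ℕ → Finset (List A)
  | 0 => add2 (fac u 0 n) ∅
  | N + 1 => add2 (fac u (N + 1) n) (S u n N)

/-- the factors of length `n+1` at positions `< N`, with their reversals -/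
noncomputable def E (u : ℕ → A) (n : ℕ) : ℕ → Finset (List A)
  | 0 => ∅
  | N + 1 => add2 (fac u N (n + 1)) (E u n N)

theorem mem_S (u : ℕ → A) (n N : ℕ) (w : List A) :
    w ∈ S u n N ↔ ∃ i ≤ N, w = fac u i n ∨ w = (fac u i n).reverse := by
  induction N with
  | zero =>
    rw [S, mem_add2]
    simp
  | succ N ih =>
    rw [S, mem_add2, ih]
    constructor
    · rintro (h | h | ⟨i, hi, h⟩)
      · exact ⟨N + 1, le_rfl, Or.inl h⟩
      · exact ⟨N + 1, le_rfl, Or.inr h⟩
      · exact ⟨i, by omega, h⟩
    · rintro ⟨i, hi, h⟩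
      rcases Nat.lt_or_ge N i with h1 | h1
      · have : i = N + 1 := by omega
        subst this
        tauto
      · exact Or.inr (Or.inr ⟨i, h1, h⟩)

theorem mem_E (u : ℕ → A) (n N : ℕ) (w : List A) :
    w ∈ E u n N ↔ ∃ i < N, w = fac u i (n + 1) ∨ w = (fac u i (n + 1)).reverse := by
  induction N with
  | zero => simp [E]
  | succ N ih =>
    rw [E, mem_add2, ih]
    constructor
    · rintro (h | h | ⟨i, hi, h⟩)
      · exact ⟨N, by omega, Or.inl h⟩
      · exact ⟨N, by omega, Or.inr h⟩
      · exact ⟨i, by omega, h⟩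
    · rintro ⟨i, hi, h⟩
      rcases Nat.lt_or_ge i N with h1 | h1
      · exact Or.inr (Or.inr ⟨i, h1, h⟩)
      · have : i = N := by omega
        subst this
        tauto

theorem rev_mem_S (u : ℕ → A) (n N : ℕ) (w : List A) (h : w ∈ S u n N) :
    w.reverse ∈ S u n N := by
  rw [mem_S] at h ⊢
  obtain ⟨i, hi, h | h⟩ := h
  · exact ⟨i, hi, Or.inr (by rw [h])⟩
  · exact ⟨i, hi, Or.inl (by rw [h, List.reverse_reverse])⟩

theorem rev_mem_E (u : ℕ → A) (n N : ℕ) (w : List A) (h : w ∈ E u n N) :
    w.reverse ∈ E u n N := by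
  rw [mem_E] at h ⊢
  obtain ⟨i, hi, h | h⟩ := h
  · exact ⟨i, hi, Or.inr (by rw [h])⟩
  · exact ⟨i, hi, Or.inl (by rw [h, List.reverse_reverse])⟩

/-- sub-windows of equal or reversed windows -/
theorem Cls.last {u : ℕ → A} {i j n : ℕ} (h : Cls u i j (n + 1)) :
    Cls u (i + 1) (j + 1) n ∨ Cls u (i + 1) j n := by
  rcases h with h | h
  · left; left
    intro t ht
    have := h (t + 1) (by omega)
    rwa [show i + (t + 1) = i + 1 + t by ring, show j + (t + 1) = j + 1 + t by ring] at this
  · right; right
    intro s t hst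
    have := h (s + 1) t (by omega)
    rwa [show i + (s + 1) = i + 1 + s by ring] at this

theorem cls_iff (u : ℕ → A) (i j n : ℕ) :
    Cls u i j n ↔ (fac u i n = fac u j n ∨ fac u i n = (fac u j n).reverse) := by
  unfold Cls
  rw [fac_eq_iff]
  constructor
  · rintro (h | h)
    · exact Or.inl h
    · exact Or.inr ((fac_rev_eq_iff u j i n).2 h.symm).symm
  · rintro (h | h)
    · exact Or.inl h
    · exact Or.inr ((fac_rev_eq_iff u j i n).1 h.symm).symm

/-- the main count -/
theorem invariant (u : ℕ → A) (N0 : ℕ) (hU : ∀ m, N0 ≤ m → Uni u m) (n : ℕ) (hn : N0 ≤ n)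
    (N : ℕ) : mu (E u n N) + 2 = nu (S u n N) := by
  induction N with
  | zero =>
    rw [S, nu_new _ _ (by simp) (by simp)]
    simp [E, mu, nu]
  | succ N ih =>
    rw [S, E]
    by_cases hS : fac u (N + 1) n ∈ S u n N
    · rw [add2_old _ _ hS (rev_mem_S _ _ _ _ hS)]
      -- the last earlier occurrence
      rw [mem_S] at hS
      obtain ⟨i, hi, hi2⟩ := hS
      have hP : ∃ d, 0 < d ∧ d ≤ N + 1 ∧ Cls u (N + 1 - d) (N + 1) n := by
        refine ⟨N + 1 - i, by omega, by omega, ?_⟩
        rw [show N + 1 - (N + 1 - i) = i by omega]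
        exact ((cls_iff u (N + 1) i n).2 hi2).symm
      set d := Nat.find hP with hd
      obtain ⟨hd1, hd2, hd3⟩ := Nat.find_spec hP
      have hmin : ∀ d', d' < d → ¬ (0 < d' ∧ d' ≤ N + 1 ∧ Cls u (N + 1 - d') (N + 1) n) :=
        fun d' h => Nat.find_min hP h
      have hpal := claim u N0 hU n hn (N + 1 - d) d hd1
        (by rw [show N + 1 - d + d = N + 1 by omega]; exact hd3) (by
          intro t ht1 ht2 hc
          apply hmin (d - t) (by omega)
          refine ⟨by omega, by omega, ?_⟩
          rw [show N + 1 - (d - t) = N + 1 - d + t by omega]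
          exact hc.symm.trans hd3)
      rcases Nat.lt_or_ge 1 d with h1 | h1
      · -- an old edge
        have hE : fac u N (n + 1) ∈ E u n N := by
          rw [mem_E]
          refine ⟨N + 1 - d, by omega, Or.inr ?_⟩
          symm
          rw [fac_rev_eq_iff]
          intro s t hst
          exact hpal (N + 1 - d + s) (N + t) (by omega) (by omega) (by omega)
        rw [add2_old _ _ hE (rev_mem_E _ _ _ _ hE), ih]
      · -- a palindromic edge
        have h2 : d = 1 := by omega
        rw [h2] at hpal
        have : (fac u N (n + 1)).reverse = fac u N (n + 1) := by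
          rw [fac_rev_eq_iff]
          intro s t hst
          exact hpal (N + s) (N + t) (by omega) (by omega) (by omega)
        rw [mu_pal _ _ this, ih]
    · -- a new vertex
      have hS' : (fac u (N + 1) n).reverse ∉ S u n N := by
        intro h
        have := rev_mem_S _ _ _ _ h
        rw [List.reverse_reverse] at this
        exact hS this
      have hcls : ∀ j, j ≤ N → ¬ Cls u (N + 1) j n := by
        intro j hj hc
        exact hS ((mem_S _ _ _ _).2 ⟨j, hj, (cls_iff u (N + 1) j n).1 hc⟩)
      have hE : fac u N (n + 1) ∉ E u n N := by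
        intro h
        rw [mem_E] at h
        obtain ⟨j, hj, h⟩ := h
        rcases ((cls_iff u N j (n + 1)).2 h).last with h1 | h1
        · exact hcls (j + 1) (by omega) h1
        · exact hcls j (by omega) h1
      have hE' : (fac u N (n + 1)).reverse ∉ E u n N := by
        intro h
        have := rev_mem_E _ _ _ _ h
        rw [List.reverse_reverse] at this
        exact hE this
      have hpal : (fac u N (n + 1)).reverse ≠ fac u N (n + 1) := by
        intro h
        rw [fac_rev_eq_iff] at h
        apply hcls N le_rfl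
        right
        intro s t hst
        have := h (s + 1) t (by omega)
        rwa [show N + (s + 1) = N + 1 + s by ring] at this
      rw [nu_new _ _ hS hS', mu_new _ _ hE hE' hpal]
      omega

theorem nu_eq (S : Finset (List A)) :
    nu S = S.card + (S.filter (fun w => w.reverse = w)).card := by
  unfold nu
  rw [Finset.card_filter, Finset.card_eq_sum_ones, ← Finset.sum_add_distrib]
  apply Finset.sum_congr rfl
  intro w _
  split_ifs <;> rfl

theorem mu_eq (S : Finset (List A)) :
    mu S + (S.filter (fun w => w.reverse = w)).card = S.card := by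
  unfold mu
  rw [Finset.card_filter, Finset.card_eq_sum_ones, ← Finset.sum_add_distrib]
  apply Finset.sum_congr rfl
  intro w _
  split_ifs <;> rfl

theorem finite_len [Finite A] (n : ℕ) : {w : List A | w.length ≤ n}.Finite :=
  List.finite_length_le A n

theorem bound [Finite A] (u : ℕ → A) (n : ℕ) :
    ∃ B, ∀ w ∈ Lang u, w.length ≤ n → ∃ i ≤ B, w = fac u i w.length := by
  have h1 : ∀ w ∈ Lang u, ∃ i, w = fac u i w.length := by
    rintro w ⟨i, m, rfl⟩
    exact ⟨i, by rw [fac_length]⟩
  choose! f hf using h1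
  obtain ⟨B, hB⟩ := ((finite_len (A := A) n).image f).bddAbove
  refine ⟨B, fun w hw hl => ⟨f w, ?_, hf w hw⟩⟩
  exact hB ⟨w, hl, rfl⟩

theorem S_eq [Finite A] (u : ℕ → A) (hrev : ClosedRev u) (n N B : ℕ)
    (hB : ∀ w ∈ Lang u, w.length ≤ n → ∃ i ≤ B, w = fac u i w.length) (hN : B ≤ N) :
    {w | w ∈ Lang u ∧ w.length = n} = (S u n N : Set (List A)) := by
  ext w
  simp only [Set.mem_ofPred_eq, Finset.mem_coe, mem_S]
  constructor
  · rintro ⟨hw, hl⟩
    obtain ⟨i, hi, h⟩ := hB w hw hl.le
    exact ⟨i, hi.trans hN, Or.inl (by rw [← hl]; exact h)⟩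
  · rintro ⟨i, hi, h | h⟩
    · rw [h]; exact ⟨mem_lang _ _ _, fac_length _ _ _⟩
    · rw [h]; exact ⟨hrev _ (mem_lang _ _ _), by rw [List.length_reverse, fac_length]⟩

theorem E_eq [Finite A] (u : ℕ → A) (hrev : ClosedRev u) (n N B : ℕ)
    (hB : ∀ w ∈ Lang u, w.length ≤ n + 1 → ∃ i ≤ B, w = fac u i w.length) (hN : B < N) :
    {w | w ∈ Lang u ∧ w.length = n + 1} = (E u n N : Set (List A)) := by
  ext w
  simp only [Set.mem_ofPred_eq, Finset.mem_coe, mem_E]
  constructor
  · rintro ⟨hw, hl⟩
    obtain ⟨i, hi, h⟩ := hB w hw hl.le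
    exact ⟨i, lt_of_le_of_lt hi hN, Or.inl (by rw [← hl]; exact h)⟩
  · rintro ⟨i, hi, h | h⟩
    · rw [h]; exact ⟨mem_lang _ _ _, fac_length _ _ _⟩
    · rw [h]; exact ⟨hrev _ (mem_lang _ _ _), by rw [List.length_reverse, fac_length]⟩

theorem C_eq (u : ℕ → A) (n : ℕ) (F : Finset (List A))
    (h : {w | w ∈ Lang u ∧ w.length = n} = (F : Set (List A))) : C u n = F.card := by
  rw [C, h, Set.ncard_coe_finset]

theorem P_eq (u : ℕ → A) (n : ℕ) (F : Finset (List A))
    (h : {w | w ∈ Lang u ∧ w.length = n} = (F : Set (List A))) :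
    P u n = (F.filter (fun w => w.reverse = w)).card := by
  have : {w | w ∈ Lang u ∧ w.length = n ∧ Pal w} =
      ((F.filter (fun w => w.reverse = w) : Finset (List A)) : Set (List A)) := by
    ext w
    have h1 : w ∈ {w | w ∈ Lang u ∧ w.length = n} ↔ w ∈ (F : Set (List A)) := by rw [h]
    simp only [Set.mem_ofPred_eq, Finset.mem_coe] at h1
    simp only [Set.mem_ofPred_eq, Finset.coe_filter, ← h1, Pal]
    tauto
  rw [P, this, Set.ncard_coe_finset]

/-- if all long prefixes have a unioccurrent palindromic suffix, then `T(n) = 0` for large `n` -/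
theorem T_zero [Finite A] (u : ℕ → A) (hrev : ClosedRev u) (N0 : ℕ)
    (hU : ∀ m, N0 ≤ m → Uni u m) (n : ℕ) (hn : N0 ≤ n) : T u n = 0 := by
  obtain ⟨B, hB⟩ := bound u (n + 1)
  have e1 := S_eq u hrev n (B + 1) B (fun w hw hl => hB w hw (by omega)) (by omega)
  have e2 := E_eq u hrev n (B + 1) B hB (by omega)
  have h1 := invariant u N0 hU n hn (B + 1)
  have h2 := nu_eq (S u n (B + 1))
  have h3 := mu_eq (E u n (B + 1))
  rw [T, C_eq u n _ e1, C_eq u (n + 1) _ e2, P_eq u n _ e1, P_eq u (n + 1) _ e2]
  omega

end count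

/-! ### palindromic complete return words -/

/-- a closed under reversal language is recurrent -/
theorem recurrent_opp (u : ℕ → A) (hrev : ClosedRev u) (i n m : ℕ) :
    ∃ j, m ≤ j ∧ Opp u i j n := by
  obtain ⟨j, M, hj⟩ := hrev _ (mem_lang u 0 (m + (i + n)))
  have hM : M = m + (i + n) := by
    have := congrArg List.length hj
    rw [List.length_reverse, fac_length, fac_length] at this
    exact this.symm
  rw [hM, fac_rev_eq_iff] at hj
  refine ⟨j + m, by omega, ?_⟩
  intro s t hst
  have := hj (i + s) (m + t) (by omega)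
  rwa [zero_add, ← add_assoc] at this

theorem recurrent (u : ℕ → A) (hrev : ClosedRev u) (i n m : ℕ) :
    ∃ j, m ≤ j ∧ Same u i j n := by
  obtain ⟨j, -, hj⟩ := recurrent_opp u hrev i n 0
  obtain ⟨k, hk1, hk2⟩ := recurrent_opp u hrev j n m
  exact ⟨k, hk1, hj.opp hk2⟩

/-- complete return words of palindromes, in terms of positions -/
theorem crw_pos (u : ℕ → A) (K : ℕ)
    (hK : ∀ w ∈ Lang u, Pal w → K ≤ w.length → ∀ v ∈ Lang u, IsCRW v w → Pal v)
    (i d n : ℕ) (hd : 0 < d) (hn : K ≤ n) (hp : PalI u i (i + n)) (hs : Same u i (i + d) n)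
    (hno : ∀ t, 0 < t → t < d → ¬ Same u i (i + t) n) : PalI u i (i + (d + n)) := by
  rw [← pal_fac_iff]
  apply hK (fac u i n) (mem_lang _ _ _) ((pal_fac_iff _ _ _).2 hp)
    (by rw [fac_length]; exact hn) _ (mem_lang _ _ _)
  have hdt : ∀ t, t ≤ d → ((fac u i (d + n)).drop t).take n = fac u (i + t) n := by
    intro t ht
    apply List.ext_getElem
    · simp [fac]; omega
    · intro a h1 h2
      simp [fac, add_assoc]
  refine ⟨by rw [fac_length, fac_length]; omega, ?_, ?_, ?_⟩
  · rw [List.prefix_iff_eq_take, fac_length]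
    have := hdt 0 (by omega)
    rw [List.drop_zero, add_zero] at this
    exact this.symm
  · rw [List.suffix_iff_eq_drop, fac_length, fac_length]
    have := hdt d le_rfl
    rw [show d + n - n = d by omega]
    rw [← (fac_eq_iff u i (i + d) n).2 hs] at this
    conv_lhs => rw [← this]
    rw [List.take_of_length_le]
    rw [List.length_drop, fac_length]
    omega
  · rw [Set.ncard_eq_two]
    refine ⟨0, d, by omega, ?_⟩
    ext t
    simp only [OccAt, Set.mem_ofPred_eq, Set.mem_insert_iff, Set.mem_singleton_iff, fac_length]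
    constructor
    · rintro ⟨h1, h2⟩
      rw [hdt t (by omega), fac_eq_iff] at h2
      by_contra hc
      push Not at hc
      exact hno t (by omega) (by omega) h2.symm
    · intro h
      refine ⟨by omega, ?_⟩
      rw [hdt t (by omega), fac_eq_iff]
      rcases h with rfl | rfl
      · intro a _; rfl
      · exact hs.symm

theorem uni_of_crw [Finite A] (u : ℕ → A) (hrev : ClosedRev u)
    (hinf : {w | w ∈ Lang u ∧ Pal w}.Infinite) (K : ℕ)
    (hK : ∀ w ∈ Lang u, Pal w → K ≤ w.length → ∀ v ∈ Lang u, IsCRW v w → Pal v) :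
    ∃ N0, ∀ m, N0 ≤ m → Uni u m := by
  classical
  -- a bound for first occurrences
  obtain ⟨B, hB⟩ := bound u (K + 2)
  have hB' : ∀ i n, n ≤ K + 2 → ∃ i' ≤ B, Same u i' i n := by
    intro i n hn
    obtain ⟨i', h1, h2⟩ := hB (fac u i n) (mem_lang _ _ _) (by rw [fac_length]; exact hn)
    rw [fac_length, fac_eq_iff] at h2
    exact ⟨i', h1, h2.symm⟩
  -- palindromic intervals of length `K+1` or `K+2` occur far away
  have hfar : ∀ m, ∃ a b, m < b ∧ (b = a + (K + 1) ∨ b = a + (K + 2)) ∧ PalI u a b := by
    intro m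
    obtain ⟨w, ⟨⟨i, n, hw⟩, hp⟩, hl⟩ := hinf.exists_notMem_finite (finite_len (A := A) (K + 2))
    have hn : K + 2 < n := by
      by_contra hc
      apply hl
      show w.length ≤ K + 2
      rw [hw, fac_length]
      omega
    rw [hw, pal_fac_iff] at hp
    obtain ⟨c, n', hc, hn'⟩ : ∃ c n', i ≤ c ∧ (n' = K + 1 ∨ n' = K + 2) ∧
        c + (c + n') = i + (i + n) := by
      rcases Nat.even_or_odd' (n - (K + 1)) with ⟨k, hk | hk⟩
      · exact ⟨i + k, K + 1, by omega, Or.inl rfl, by omega⟩
      · exact ⟨i + k, K + 2, by omega, Or.inr rfl, by omega⟩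
    have hp2 := hp.sub hc hn'.2
    obtain ⟨j, hj1, hj2⟩ := recurrent u hrev c n' (m + 1)
    refine ⟨j, j + n', by omega, ?_, hp2.of_same hj2⟩
    rcases hn'.1 with h | h
    · left; rw [h]
    · right; rw [h]
  refine ⟨B + K + 5, ?_⟩
  intro m hm
  -- the next centre
  have hex : ∃ σ a b, σ = a + b ∧ m < b ∧ (b = a + (K + 1) ∨ b = a + (K + 2)) ∧
      PalI u a b := by
    obtain ⟨a, b, h⟩ := hfar m
    exact ⟨a + b, a, b, rfl, h⟩
  obtain ⟨a, b, hab, hb, hlen, hpab⟩ := Nat.find_spec hex
  have hmin : ∀ σ, σ < a + b → ¬ ∃ a b, σ = a + b ∧ m < b ∧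
      (b = a + (K + 1) ∨ b = a + (K + 2)) ∧ PalI u a b := by
    intro σ hσ
    rw [← hab] at hσ
    exact Nat.find_min hex hσ
  -- the last earlier occurrence
  have hex2 : ∃ d, 0 < d ∧ d ≤ a ∧ Same u (a - d) a (b - a) := by
    obtain ⟨i', h1, h2⟩ := hB' a (b - a) (by omega)
    refine ⟨a - i', by omega, by omega, ?_⟩
    rw [show a - (a - i') = i' by omega]
    exact h2
  obtain ⟨hd1, hd2, hd3⟩ := Nat.find_spec hex2
  have hdmin : ∀ d', d' < Nat.find hex2 → ¬ (0 < d' ∧ d' ≤ a ∧ Same u (a - d') a (b - a)) :=
    fun d' h => Nat.find_min hex2 h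
  set d := Nat.find hex2 with hd
  obtain ⟨a', ha'⟩ : ∃ a', a = a' + d := ⟨a - d, by omega⟩
  have hpa' : PalI u a' (a' + (d + (b - a))) := by
    apply crw_pos u K hK a' d (b - a) hd1 (by omega)
    · rw [show a - d = a' by omega] at hd3
      have h1 : PalI u a (a + (b - a)) := by
        rw [show a + (b - a) = b by omega]; exact hpab
      exact h1.of_same hd3.symm
    · rw [show a - d = a' by omega] at hd3
      rw [← ha']
      exact hd3
    · intro t ht1 ht2 hc
      apply hdmin (d - t) (by omega)
      refine ⟨by omega, by omega, ?_⟩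
      rw [show a - d = a' by omega] at hd3
      rw [show a - (d - t) = a' + t by omega]
      exact hc.symm.trans hd3
  rw [show a' + (d + (b - a)) = b by omega] at hpa'
  -- the centre of this palindrome ends before `m`
  have hc : ∃ c e, a' ≤ c ∧ c + e = a' + b ∧ (e = c + (K + 1) ∨ e = c + (K + 2)) := by
    rcases Nat.even_or_odd' (b - a' - (K + 1)) with ⟨k, hk | hk⟩
    · exact ⟨a' + k, a' + k + (K + 1), by omega, by omega, by omega⟩
    · exact ⟨a' + k, a' + k + (K + 2), by omega, by omega, by omega⟩
  obtain ⟨c, e, hc1, hc2, hc3⟩ := hc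
  have hem : e ≤ m := by
    by_contra h
    exact hmin (c + e) (by omega) ⟨c, e, rfl, by omega, hc3, hpa'.sub hc1 hc2⟩
  have hlong : ∃ s, s + (K + 1) ≤ m ∧ PalI u s m :=
    ⟨a' + b - m, by omega, hpa'.sub (by omega) (by omega)⟩
  -- the longest palindromic suffix
  have hex3 : ∃ s, PalI u s m := ⟨m, fun s t h1 h2 h3 => by omega⟩
  have hspec := Nat.find_spec hex3
  have hsmin : ∀ s', s' < Nat.find hex3 → ¬ PalI u s' m := fun s' h => Nat.find_min hex3 h
  have hsle : ∀ s', PalI u s' m → Nat.find hex3 ≤ s' := fun s' h => Nat.find_min' hex3 h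
  set s := Nat.find hex3 with hs
  obtain ⟨s1, hs1, hs2⟩ := hlong
  have hs3 := hsle s1 hs2
  refine ⟨s, by omega, hspec, ?_⟩
  intro s' hs' hsame
  -- the last earlier occurrence
  have hex4 : ∃ d, 0 < d ∧ d ≤ s ∧ Same u (s - d) s (m - s) :=
    ⟨s - s', by omega, by omega, by rw [show s - (s - s') = s' by omega]; exact hsame⟩
  obtain ⟨he1, he2, he3⟩ := Nat.find_spec hex4
  have hemin : ∀ d', d' < Nat.find hex4 → ¬ (0 < d' ∧ d' ≤ s ∧ Same u (s - d') s (m - s)) :=
    fun d' h => Nat.find_min hex4 h
  set f := Nat.find hex4 with hf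
  have h5 : PalI u (s - f) (s - f + (f + (m - s))) := by
    apply crw_pos u K hK (s - f) f (m - s) he1 (by omega)
    · have h1 : PalI u s (s + (m - s)) := by
        rw [show s + (m - s) = m by omega]; exact hspec
      exact h1.of_same he3.symm
    · rw [show s - f + f = s by omega]
      exact he3
    · intro t ht1 ht2 hc
      apply hemin (f - t) (by omega)
      refine ⟨by omega, by omega, ?_⟩
      rw [show s - (f - t) = s - f + t by omega]
      exact hc.symm.trans he3
  rw [show s - f + (f + (m - s)) = m by omega] at h5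
  exact hsmin _ (by omega) h5

end Pool.Agent.V11120.PalT
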