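import Pool.Agent.V11120.PalT.Core

/-!
# Eventually vanishing `T(n)` forces finite palindromic defect
-/

set_option autoImplicit false

namespace Pool.Agent.V11120.PalT

variable {A : Type}

/-- The palindromic defect `|w| + 1 - p(w)` of a finite word, where `p(w)` is the number of
distinct palindromic factors of `w`, the empty word included. -/
noncomputable def defect (w : List A) : ℤ :=
  (w.length : ℤ) + 1 - ({v | v <:+: w ∧ Pal v}.ncard : ℤ)

/-- The defect of `u` (the supremum of the defects of its prefixes) is finite. -/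
def FiniteDefect (u : ℕ → A) : Prop := ∃ B : ℤ, ∀ m, defect (fac u 0 m) ≤ B

section

open Classical

/-- the difference `mu E + 2 - nu S` does not decrease, and increases when a cycle is closed -/
theorem step (u : ℕ → A) (n N : ℕ) :
    mu (E u n N) + nu (S u n (N + 1)) ≤ mu (E u n (N + 1)) + nu (S u n N) ∧
    (fac u (N + 1) n ∈ S u n N → fac u N (n + 1) ∉ E u n N →
      (fac u N (n + 1)).reverse ≠ fac u N (n + 1) →
      mu (E u n N) + nu (S u n (N + 1)) < mu (E u n (N + 1)) + nu (S u n N)) := by
  have e1 : S u n (N + 1) = add2 (fac u (N + 1) n) (S u n N) := rfl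
  have e2 : E u n (N + 1) = add2 (fac u N (n + 1)) (E u n N) := rfl
  by_cases hS : fac u (N + 1) n ∈ S u n N
  · have e3 : S u n (N + 1) = S u n N := by
      rw [e1, add2_old _ _ hS (rev_mem_S _ _ _ _ hS)]
    rw [e3]
    by_cases hE : fac u N (n + 1) ∈ E u n N
    · rw [e2, add2_old _ _ hE (rev_mem_E _ _ _ _ hE)]
      exact ⟨le_rfl, fun _ h => absurd hE h⟩
    · by_cases hp : (fac u N (n + 1)).reverse = fac u N (n + 1)
      · rw [e2, mu_pal _ _ hp]
        exact ⟨le_rfl, fun _ _ h => absurd hp h⟩
      · have hE' : (fac u N (n + 1)).reverse ∉ E u n N := by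
          intro h
          have := rev_mem_E _ _ _ _ h
          rw [List.reverse_reverse] at this
          exact hE this
        rw [e2, mu_new _ _ hE hE' hp]
        constructor
        · omega
        · intro _ _ _; omega
  · have hS' : (fac u (N + 1) n).reverse ∉ S u n N := by
      intro h
      have := rev_mem_S _ _ _ _ h
      rw [List.reverse_reverse] at this
      exact hS this
    have hcls : ∀ j, j ≤ N → ¬ Cls u (N + 1) j n := by
      intro j hj hc
      exact hS ((mem_S _ _ _ _).2 ⟨j, hj, (cls_iff u (N + 1) j n).1 hc⟩)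
    have hE : fac u N (n + 1) ∉ E u n N := by
      intro h
      rw [mem_E] at h
      obtain ⟨j, hj, h⟩ := h
      rcases ((cls_iff u N j (n + 1)).2 h).last with h1 | h1
      · exact hcls (j + 1) (by omega) h1
      · exact hcls j (by omega) h1
    have hE' : (fac u N (n + 1)).reverse ∉ E u n N := by
      intro h
      have := rev_mem_E _ _ _ _ h
      rw [List.reverse_reverse] at this
      exact hE this
    have hpal : (fac u N (n + 1)).reverse ≠ fac u N (n + 1) := by
      intro h
      rw [fac_rev_eq_iff] at h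
      apply hcls N le_rfl
      right
      intro s t hst
      have := h (s + 1) t (by omega)
      rwa [show N + (s + 1) = N + 1 + s by ring] at this
    rw [e1, e2, nu_new _ _ hS hS', mu_new _ _ hE hE' hpal]
    exact ⟨by omega, fun h => absurd h hS⟩

theorem mono (u : ℕ → A) (n N d : ℕ) :
    mu (E u n N) + nu (S u n (N + d)) ≤ mu (E u n (N + d)) + nu (S u n N) := by
  induction d with
  | zero => exact le_rfl
  | succ d ih =>
    have := (step u n (N + d)).1
    rw [← add_assoc]
    omega

theorem start (u : ℕ → A) (n : ℕ) : mu (E u n 0) + 2 = nu (S u n 0) := by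
  rw [S, nu_new _ _ (by simp) (by simp)]
  simp [E, mu, nu]

/-- if `T(n) = 0` then no cycle is closed -/
theorem no_cycle [Finite A] (u : ℕ → A) (hrev : ClosedRev u) (n : ℕ) (hT : T u n = 0)
    (N : ℕ) (hS : fac u (N + 1) n ∈ S u n N) :
    fac u N (n + 1) ∈ E u n N ∨ (fac u N (n + 1)).reverse = fac u N (n + 1) := by
  by_contra hc
  push Not at hc
  have h1 := (step u n N).2 hS hc.1 hc.2
  obtain ⟨B, hB⟩ := bound u (n + 1)
  have e1 := S_eq u hrev n (N + 1 + (B + 1)) B (fun w hw hl => hB w hw (by omega)) (by omega)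
  have e2 := E_eq u hrev n (N + 1 + (B + 1)) B hB (by omega)
  have h2 := nu_eq (S u n (N + 1 + (B + 1)))
  have h3 := mu_eq (E u n (N + 1 + (B + 1)))
  rw [T, C_eq u n _ e1, C_eq u (n + 1) _ e2, P_eq u n _ e1, P_eq u (n + 1) _ e2] at hT
  have h4 := mono u n 0 N
  rw [zero_add] at h4
  have h5 := mono u n (N + 1) (B + 1)
  have h6 := start u n
  omega

end

/-- eventually vanishing `T` gives unioccurrent palindromic suffixes of long prefixes -/
theorem uni_of_T [Finite A] (u : ℕ → A) (hrev : ClosedRev u) (N : ℕ)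
    (hT : ∀ n, N ≤ n → T u n = 0) : ∃ N0, ∀ m, N0 ≤ m → Uni u m := by
  classical
  obtain ⟨B, hB⟩ := bound u N
  refine ⟨B + N + 1, ?_⟩
  intro m hm
  -- the longest suffix occurring earlier (up to reversal)
  have hex : ∃ d, d ≤ m ∧ ¬ ∃ j, j < d ∧ Cls u d j (m - d) :=
    ⟨0, by omega, by rintro ⟨j, hj, -⟩; omega⟩
  have hX : ∃ j, j < m - N ∧ Cls u (m - N) j N := by
    obtain ⟨i', h1, h2⟩ := hB (fac u (m - N) N) (mem_lang _ _ _) (by rw [fac_length])
    rw [fac_length, fac_eq_iff] at h2
    exact ⟨i', by omega, h2.cls⟩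
  -- the largest `d ≤ m - N` for which the suffix does not occur earlier
  have hex2 : ∃ e, e ≤ m - N ∧ ¬ ∃ j, j < (m - N - e) ∧ Cls u (m - N - e) j (N + e) :=
    ⟨m - N, le_rfl, by rintro ⟨j, hj, -⟩; omega⟩
  obtain ⟨he1, he2⟩ := Nat.find_spec hex2
  have hmin : ∀ e', e' < Nat.find hex2 →
      ¬ (e' ≤ m - N ∧ ¬ ∃ j, j < (m - N - e') ∧ Cls u (m - N - e') j (N + e')) :=
    fun e' h => Nat.find_min hex2 h
  set e := Nat.find hex2 with he
  have he0 : 0 < e := by
    rcases Nat.eq_zero_or_pos e with h | h
    · exfalso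
      apply he2
      rw [h]
      exact hX
    · exact h
  obtain ⟨e', hee⟩ : ∃ e', e = e' + 1 := ⟨e - 1, by omega⟩
  have h3 : ∃ j, j < (m - N - e') ∧ Cls u (m - N - e') j (N + e') := by
    by_contra hc
    exact hmin e' (by omega) ⟨by omega, hc⟩
  obtain ⟨d, hd⟩ : ∃ d, m - N - e = d := ⟨_, rfl⟩
  have hd' : m - N - e' = d + 1 := by omega
  rw [hd'] at h3
  rw [hd] at he2
  have h4 : fac u (d + 1) (N + e') ∈ S u (N + e') d := by
    rw [mem_S]
    obtain ⟨j, hj1, hj2⟩ := h3
    exact ⟨j, by omega, (cls_iff _ _ _ _).1 hj2⟩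
  rcases no_cycle u hrev (N + e') (hT _ (by omega)) d h4 with h5 | h5
  · exfalso
    apply he2
    rw [mem_E] at h5
    obtain ⟨j, hj1, hj2⟩ := h5
    refine ⟨j, hj1, ?_⟩
    rw [hee, ← add_assoc]
    exact (cls_iff _ _ _ _).2 hj2
  · refine ⟨d, by omega, ?_, ?_⟩
    · have h6 := (pal_fac_iff u d (N + e' + 1)).1 h5
      rwa [show d + (N + e' + 1) = m by omega] at h6
    · intro s' hs' hsame
      apply he2
      refine ⟨s', hs', ?_⟩
      rw [show N + e = m - d by omega]
      exact hsame.symm.cls

theorem infix_fac (u : ℕ → A) (m : ℕ) (v : List A) (h : v <:+: fac u 0 m) :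
    ∃ s, s + v.length ≤ m ∧ v = fac u s v.length := by
  obtain ⟨x, y, hxy⟩ := h
  have hl := congrArg List.length hxy
  rw [List.length_append, List.length_append, fac_length] at hl
  refine ⟨x.length, by omega, ?_⟩
  apply List.ext_getElem
  · rw [fac_length]
  · intro t h1 h2
    rw [fac_get]
    have hxy' : x ++ (v ++ y) = fac u 0 m := by rw [← hxy, List.append_assoc]
    have h3 := List.getElem_of_eq hxy' (i := x.length + t) (by simp; omega)
    rw [fac_get, zero_add] at h3
    rw [← h3, List.getElem_append_right (by omega), List.getElem_append_left (by omega)]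
    simp

theorem finite_infix (u : ℕ → A) (m : ℕ) : {v | v <:+: fac u 0 m ∧ Pal v}.Finite := by
  apply ((Set.finite_Iic m).prod (Set.finite_Iic m)).image (fun q : ℕ × ℕ => fac u q.1 q.2)
    |>.subset
  rintro v ⟨hv, -⟩
  obtain ⟨s, hs1, hs2⟩ := infix_fac u m v hv
  exact ⟨(s, v.length), ⟨Set.mem_Iic.2 (by omega), Set.mem_Iic.2 (by omega)⟩, hs2.symm⟩

theorem fac_infix (u : ℕ → A) (m s l : ℕ) (h : s + l ≤ m) : fac u s l <:+: fac u 0 m := by
  refine ⟨fac u 0 s, fac u (s + l) (m - (s + l)), ?_⟩
  have key : ∀ i a b, fac u i a ++ fac u (i + a) b = fac u i (a + b) := by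
    intro i a b
    unfold fac
    rw [List.range_add, List.map_append, List.map_map]
    congr 1
    apply List.map_congr_left
    intro t _
    simp [add_assoc]
  have h1 := key 0 s l
  rw [zero_add] at h1
  have h2 := key 0 (s + l) (m - (s + l))
  rw [zero_add] at h2
  rw [h1, h2]
  congr 1
  omega

theorem finiteDefect_of_uni (u : ℕ → A) (N0 : ℕ) (hU : ∀ m, N0 ≤ m → Uni u m) :
    FiniteDefect u := by
  have key : ∀ m, m ≤ N0 + {v | v <:+: fac u 0 m ∧ Pal v}.ncard := by
    intro m
    induction m with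
    | zero => omega
    | succ m ih =>
      rcases Nat.lt_or_ge m N0 with h | h
      · omega
      · obtain ⟨s, hs1, hs2, hs3⟩ := hU (m + 1) (by omega)
        have hlt : s < m + 1 := by
          by_contra hc
          have h0 : s = m + 1 := by omega
          apply hs3 0 (by omega)
          intro t ht
          omega
        have h1 : {v | v <:+: fac u 0 m ∧ Pal v} ⊂ {v | v <:+: fac u 0 (m + 1) ∧ Pal v} := by
          rw [Set.ssubset_iff_of_subset]
          · refine ⟨fac u s (m + 1 - s), ⟨fac_infix u _ _ _ (by omega), ?_⟩, ?_⟩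
            · rw [pal_fac_iff, show s + (m + 1 - s) = m + 1 by omega]
              exact hs2
            · rintro ⟨hv, -⟩
              obtain ⟨s', h2, h3⟩ := infix_fac u m _ hv
              rw [fac_length] at h2 h3
              rw [fac_eq_iff] at h3
              exact hs3 s' (by omega) h3.symm
          · rintro v ⟨hv, hp⟩
            exact ⟨hv.trans (by
              have := fac_infix u (m + 1) 0 m (by omega)
              exact this), hp⟩
        have h2 := Set.ncard_lt_ncard h1 (finite_infix u (m + 1))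
        omega
  refine ⟨N0 + 1, fun m => ?_⟩
  rw [defect, fac_length]
  have := key m
  omega

/-- eventually vanishing `T` forces finite defect -/
theorem finiteDefect_of_T [Finite A] (u : ℕ → A) (hrev : ClosedRev u)
    (hT : ∃ N, ∀ n, N ≤ n → T u n = 0) : FiniteDefect u := by
  obtain ⟨N, hN⟩ := hT
  obtain ⟨N0, hN0⟩ := uni_of_T u hrev N hN
  exact finiteDefect_of_uni u N0 hN0

end Pool.Agent.V11120.PalT
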